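import Pool.Agent.Lib.MP_5b47ee_nt.Val2

/-!
MP_5b47ee_nt, assertion (c) at the primes 2, 3, 11 dividing 1584, for all n.
-/

namespace Pool.Agent.Results.MP_5b47ee_nt.BadPrimes

open Nat Pool.Agent.Lib.MP_5b47ee_nt

/-- `M_k = (4k)! / (k!)^4` -/
def M (k : ℕ) : ℚ := ((4 * k).factorial : ℚ) / (k.factorial : ℚ) ^ 4

/-- the number `a_n` of the file -/
def a (n : ℕ) : ℚ :=
  1 / (2 * (n : ℚ) * (2 * (n : ℚ) + 1) * ((2 * n).choose n : ℚ)) *
    ∑ k ∈ Finset.range n, (280 * (k : ℚ) + 19) * M k * 1584 ^ (2 * (n - 1 - k))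

/-- assertion (c) of the file -/
def AssertionC : Prop :=
  ∀ n : ℕ, 2 ≤ n →
    ((¬ ∃ j : ℕ, 2 * n + 1 = 3 ^ j) → ∃ z : ℤ, a n = z) ∧
    ((∃ j : ℕ, 1 ≤ j ∧ 2 * n + 1 = 3 ^ j) → ∃ z : ℤ, 3 * a n = z ∧ ¬ (3 : ℤ) ∣ z)

theorem M_eq (k : ℕ) : M k = (Mn k : ℚ) := by
  have h := Mn_mul k
  have h0 : (k.factorial : ℚ) ≠ 0 := by
    exact_mod_cast Nat.factorial_ne_zero k
  rw [M, ← h, div_eq_iff (pow_ne_zero _ h0)]
  push_cast
  ring

theorem a_eq (n : ℕ) : a n = (Sn n : ℚ) / (Dn n : ℚ) := by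
  rw [a, Sn, Dn, div_mul_eq_mul_div, one_mul]
  push_cast
  congr 1
  exact Finset.sum_congr rfl fun k _ => by rw [M_eq]

theorem Sn_pos (m : ℕ) : Sn (m + 1) ≠ 0 := by
  rw [Sn_succ]
  have : (280 * m + 19) * Mn m ≠ 0 := mul_ne_zero (by omega) (Mn_pos m)
  omega

theorem a_ne (m : ℕ) : a (m + 1) ≠ 0 := by
  rw [a_eq]
  exact div_ne_zero (by exact_mod_cast Sn_pos m) (by exact_mod_cast Dn_pos m)

theorem val_a (p : ℕ) [Fact p.Prime] (m : ℕ) :
    padicValRat p (a (m + 1)) =
      (padicValNat p (Sn (m + 1)) : ℤ) - (padicValNat p (Dn (m + 1)) : ℤ) := by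
  rw [a_eq, padicValRat.div (by exact_mod_cast Sn_pos m) (by exact_mod_cast Dn_pos m),
    padicValRat.of_nat, padicValRat.of_nat]

theorem val_a2 (m : ℕ) :
    padicValRat 2 (a (m + 1)) = 2 * ((Nat.digits 2 m).sum : ℤ) - 2 := by
  rw [val_a]
  have h1 := val2_Sn m
  have h2 := val2_Dn m
  have h3 := sub_one_mul_padicValNat_factorial (p := 2) m
  have h4 := Nat.digit_sum_le 2 m
  omega

theorem val_a11 (m : ℕ) : 0 ≤ padicValRat 11 (a (m + 1)) := by
  rw [val_a]
  have h1 := val11_Sn m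
  rw [padicValNat_dvd_iff_le (Sn_pos m)] at h1
  omega

theorem val_a3 (m : ℕ) :
    ((¬ ∃ j : ℕ, 2 * (m + 1) + 1 = 3 ^ j) → 0 ≤ padicValRat 3 (a (m + 1))) ∧
    ((∃ j : ℕ, 2 * (m + 1) + 1 = 3 ^ j) → padicValRat 3 (a (m + 1)) = -1) := by
  rw [val_a]
  obtain ⟨e, he⟩ : ∃ e, e = padicValNat 3 (Dn (m + 1)) := ⟨_, rfl⟩
  have hrest := val3_rest m
  obtain ⟨hl1, hl2⟩ := val3_last m
  have hl0 : (280 * m + 19) * Mn m ≠ 0 := mul_ne_zero (by omega) (Mn_pos m)
  rw [← he] at hrest hl1 hl2 ⊢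
  have hS := Sn_succ m
  have hS0 := Sn_pos m
  rw [show 2 * (m + 1) + 1 = 2 * m + 3 by omega]
  constructor
  · intro h
    have h1 : 3 ^ e ∣ Sn (m + 1) := by
      rw [hS]
      refine dvd_add ((pow_dvd_pow 3 (by omega)).trans hrest) ?_
      rw [padicValNat_dvd_iff_le hl0]
      exact hl1 h
    rw [padicValNat_dvd_iff_le hS0] at h1
    omega
  · intro h
    have h2 := hl2 h
    have h1 : 3 ^ (e - 1) ∣ Sn (m + 1) := by
      rw [hS]
      refine dvd_add ((pow_dvd_pow 3 (by omega)).trans hrest) ?_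
      rw [padicValNat_dvd_iff_le hl0]
      omega
    have h3 : ¬ 3 ^ e ∣ Sn (m + 1) := by
      rw [hS]
      intro h4
      have h5 := (Nat.dvd_add_right ((pow_dvd_pow 3 (by omega : e ≤ e + 2)).trans hrest)).1 h4
      rw [padicValNat_dvd_iff_le hl0] at h5
      omega
    rw [padicValNat_dvd_iff_le hS0] at h1 h3
    omega

theorem val_a_large (p : ℕ) [Fact p.Prime] (m : ℕ) (hp : 2 * (m + 1) + 1 < p) :
    0 ≤ padicValRat p (a (m + 1)) := by
  rw [val_a]
  have h := val_Dn p m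
  have h1 : padicValNat p (2 * m + 3)! = 0 := by
    refine padicValNat.eq_zero_of_not_dvd ?_
    rw [(Fact.out (p := p.Prime)).dvd_factorial]
    omega
  have h2 : padicValNat p 2 = 0 := by
    refine padicValNat.eq_zero_of_not_dvd fun hd => ?_
    have := Nat.le_of_dvd (by norm_num) hd
    omega
  omega

theorem not_dvd_den_iff (p : ℕ) [hp : Fact p.Prime] (q : ℚ) :
    ¬ p ∣ q.den ↔ 0 ≤ padicValRat p q := by
  have hdef : padicValRat p q = (padicValInt p q.num : ℤ) - (padicValNat p q.den : ℤ) := rfl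
  rw [hdef]
  constructor
  · intro h
    rw [padicValNat.eq_zero_of_not_dvd h]
    simp
  · intro h hd
    have h1 : 1 ≤ padicValNat p q.den := one_le_padicValNat_of_dvd q.den_ne_zero hd
    have h2 : ¬ p ∣ q.num.natAbs := by
      intro h3
      have := Nat.dvd_gcd h3 hd
      rw [q.reduced] at this
      exact hp.out.one_lt.ne' (Nat.dvd_one.1 this)
    have h3 : padicValInt p q.num = 0 := padicValNat.eq_zero_of_not_dvd h2
    omega

theorem int_of_val (q : ℚ) (h : ∀ p : ℕ, p.Prime → ∀ [Fact p.Prime], 0 ≤ padicValRat p q) :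
    ∃ z : ℤ, q = z := by
  have h1 : q.den = 1 := by
    by_contra hne
    obtain ⟨p, hp, hpd⟩ := Nat.exists_prime_and_dvd hne
    have : Fact p.Prime := ⟨hp⟩
    exact (not_dvd_den_iff p q).2 (h p hp) hpd
  exact ⟨q.num, (Rat.coe_int_num_of_den_eq_one h1).symm⟩

theorem result :
    (∀ n : ℕ, 2 ≤ n →
      padicValRat 2 (a n) = 2 * ((Nat.digits 2 (n - 1)).sum : ℤ) - 2 ∧
      0 ≤ padicValRat 11 (a n) ∧
      ((¬ ∃ j : ℕ, 2 * n + 1 = 3 ^ j) → 0 ≤ padicValRat 3 (a n)) ∧
      ((∃ j : ℕ, 2 * n + 1 = 3 ^ j) → padicValRat 3 (a n) = -1)) ∧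
    (AssertionC ↔ ∀ n : ℕ, 2 ≤ n → ∀ p : ℕ, p.Prime → 5 ≤ p → p ≠ 11 → p ≤ 2 * n + 1 →
      ¬ p ∣ (a n).den) := by
  have h3inst : Fact (Nat.Prime 3) := ⟨Nat.prime_three⟩
  have hval : ∀ n : ℕ, 2 ≤ n →
      padicValRat 2 (a n) = 2 * ((Nat.digits 2 (n - 1)).sum : ℤ) - 2 ∧
      0 ≤ padicValRat 11 (a n) ∧
      ((¬ ∃ j : ℕ, 2 * n + 1 = 3 ^ j) → 0 ≤ padicValRat 3 (a n)) ∧
      ((∃ j : ℕ, 2 * n + 1 = 3 ^ j) → padicValRat 3 (a n) = -1) := by
    intro n hn
    obtain ⟨m, rfl⟩ : ∃ m, n = m + 1 := ⟨n - 1, by omega⟩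
    exact ⟨val_a2 m, val_a11 m, val_a3 m⟩
  refine ⟨hval, ?_, ?_⟩
  · intro hC n hn p hp h5 _ _ hd
    obtain ⟨h1, h2⟩ := hC n hn
    by_cases hj : ∃ j : ℕ, 2 * n + 1 = 3 ^ j
    · obtain ⟨j, hj⟩ := hj
      have hj1 : 1 ≤ j := by
        rcases j with _ | j
        · simp at hj
          omega
        · omega
      obtain ⟨z, hz, -⟩ := h2 ⟨j, hj1, hj⟩
      have : Fact p.Prime := ⟨hp⟩
      have h4 : 0 ≤ padicValRat p (a n) := by
        have h6 : a n = (z : ℚ) / 3 := by
          rw [← hz]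
          ring
        have hz0 : (z : ℚ) ≠ 0 := by
          intro h0
          obtain ⟨m, rfl⟩ : ∃ m, n = m + 1 := ⟨n - 1, by omega⟩
          rw [h0, zero_div] at h6
          exact a_ne m h6
        rw [h6, padicValRat.div hz0 (by norm_num), padicValRat.of_int]
        have h7 : padicValRat p (3 : ℚ) = 0 := by
          have : padicValRat p ((3 : ℕ) : ℚ) = ((padicValNat p 3 : ℕ) : ℤ) := padicValRat.of_nat
          rw [padicValNat.eq_zero_of_not_dvd (fun hd3 => by
            have := Nat.le_of_dvd (by norm_num) hd3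
            omega)] at this
          exact_mod_cast this
        rw [h7]
        simp
      exact (not_dvd_den_iff p (a n)).2 h4 hd
    · obtain ⟨z, hz⟩ := h1 hj
      rw [hz, Rat.den_intCast] at hd
      have := Nat.dvd_one.1 hd
      omega
  · intro hR n hn
    obtain ⟨v2, v11, v3, v3'⟩ := hval n hn
    obtain ⟨m, rfl⟩ : ∃ m, n = m + 1 := ⟨n - 1, by omega⟩
    have hs : 1 ≤ (Nat.digits 2 m).sum := by
      rcases Nat.eq_zero_or_pos ((Nat.digits 2 m).sum) with h0 | h0
      · exfalso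
        have h3 := sub_one_mul_padicValNat_factorial (p := 2) m
        rw [h0] at h3
        have h4 : 2 * padicValNat 2 m ! = 2 * m := by omega
        have h5 := val2_Dn m
        have h6 := val2_fac m
        have h7 : ∀ k : ℕ, 0 < k → padicValNat 2 k ! < k := by
          intro k hk
          have h8 := sub_one_mul_padicValNat_factorial (p := 2) k
          have h9 : 0 < (Nat.digits 2 k).sum := by
            rw [Nat.pos_iff_ne_zero]
            intro h10
            have h11 := Nat.getLast_digit_ne_zero 2 hk.ne'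
            have h12 := (List.sum_eq_zero_iff.1 h10) _ (List.getLast_mem
              (Nat.digits_ne_nil_iff_ne_zero.2 hk.ne'))
            exact h11 h12
          omega
        have := h7 m (by omega)
        omega
      · exact h0
    have v2' : 0 ≤ padicValRat 2 (a (m + 1)) := by
      rw [v2, show m + 1 - 1 = m by omega]
      omega
    have hgen : ∀ p : ℕ, p.Prime → p ≠ 3 → ∀ [Fact p.Prime], 0 ≤ padicValRat p (a (m + 1)) := by
      intro p hp hp3 _
      by_cases h2 : p = 2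
      · subst h2
        exact v2'
      by_cases h11 : p = 11
      · subst h11
        exact v11
      by_cases hl : p ≤ 2 * (m + 1) + 1
      · have h5 : 5 ≤ p := by
          by_contra hcon
          have h2' := hp.two_le
          interval_cases p
          · exact h2 rfl
          · exact hp3 rfl
          · revert hp
            norm_num
        exact (not_dvd_den_iff p _).1 (hR _ hn p hp h5 h11 hl)
      · exact val_a_large p m (by omega)
    refine ⟨fun hj => int_of_val _ fun p hp _ => ?_, ?_⟩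
    · by_cases hp3 : p = 3
      · subst hp3
        exact v3 hj
      · exact hgen p hp hp3
    · rintro ⟨j, -, hj⟩
      have h3v := v3' ⟨j, hj⟩
      have h30 : padicValRat 3 (3 : ℚ) = 1 := by
        have : padicValRat 3 ((3 : ℕ) : ℚ) = ((padicValNat 3 3 : ℕ) : ℤ) := padicValRat.of_nat
        rw [padicValNat_self] at this
        exact_mod_cast this
      have h3a : padicValRat 3 (3 * a (m + 1)) = 0 := by
        rw [padicValRat.mul (by norm_num) (a_ne m), h3v, h30]
        norm_num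
      obtain ⟨z, hz⟩ := int_of_val (3 * a (m + 1)) fun p hp _ => by
        by_cases hp3 : p = 3
        · subst hp3
          exact h3a.ge
        · rw [padicValRat.mul (by norm_num) (a_ne m)]
          have h7 : padicValRat p (3 : ℚ) = 0 := by
            have : padicValRat p ((3 : ℕ) : ℚ) = ((padicValNat p 3 : ℕ) : ℤ) := padicValRat.of_nat
            rw [padicValNat.eq_zero_of_not_dvd (fun hd3 => hp3
              ((Nat.prime_dvd_prime_iff_eq hp Nat.prime_three).1 hd3))] at this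
            exact_mod_cast this
          rw [h7, zero_add]
          exact hgen p hp hp3
      refine ⟨z, hz, fun hd => ?_⟩
      rw [hz, padicValRat.of_int] at h3a
      have hz0 : z ≠ 0 := by
        rintro rfl
        rw [Int.cast_zero] at hz
        exact (mul_ne_zero (by norm_num) (a_ne m)) hz
      have h8 : 1 ≤ padicValNat 3 z.natAbs :=
        one_le_padicValNat_of_dvd (by simpa using hz0) (Int.natCast_dvd.1 (by exact_mod_cast hd))
      have h9 : padicValInt 3 z = padicValNat 3 z.natAbs := rfl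
      rw [h9] at h3a
      omega

end Pool.Agent.Results.MP_5b47ee_nt.BadPrimes
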